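import Pool.Agent.H73.ZP.Df

/-!
Dol'nikov's problem for two families of translates of a plane convex body with three pairwise
antipodal points: definitions for the combinatorial part.  The plane is `ZP.V = ℝ × ℝ`.
-/

namespace AP

open ZP

/-- The translate of `M` by `x` contains the block `b i, ..., b j`. -/
def Gd (M : Set V) (b : ℤ → V) (i j : ℤ) (x : V) : Prop :=
  ∀ k, i ≤ k → k ≤ j → b k - x ∈ M

/-- The three translates `x₁ + M`, `x₂ + M`, `x₃ + M` contain the three consecutive blocks of the cyclic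
sequence `b` (period `N`) with ends `c₁, c₂`; `c₂, c₃`; `c₃, c₁ + N`. -/
structure Fit (M : Set V) (b : ℤ → V) (N c₁ c₂ c₃ : ℤ) (x₁ x₂ x₃ : V) : Prop where
  h12 : c₁ ≤ c₂
  h23 : c₂ ≤ c₃
  h31 : c₃ ≤ c₁ + N
  g1 : Gd M b c₁ c₂ x₁
  g2 : Gd M b c₂ c₃ x₂
  g3 : Gd M b c₃ (c₁ + N) x₃

/-- The tie property: three pairwise intersecting translates of `L` have a common point, if the two
lowest of them have the same height. -/
def TieP (L : Set V) : Prop :=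
  ∀ x₁ x₂ x₃ : V, x₁.2 = x₂.2 → x₁.2 ≤ x₃.2 →
    (∃ w, w - x₁ ∈ L ∧ w - x₂ ∈ L) → (∃ w, w - x₁ ∈ L ∧ w - x₃ ∈ L) →
    (∃ w, w - x₂ ∈ L ∧ w - x₃ ∈ L) →
    ∃ o, o - x₁ ∈ L ∧ o - x₂ ∈ L ∧ o - x₃ ∈ L

/-- Three pairwise antipodal points `p, q, r` of `L` in coordinates where the chord `r q` is
horizontal, `p` is below it, and `r`, `q` are extreme for the first coordinate. -/
structure Cl (L : Set V) (p q r a b : V) : Prop where
  conv : Convex ℝ L
  pm : p ∈ L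
  qm : q ∈ L
  rm : r ∈ L
  hqr : q.2 = r.2
  hrq : r.1 < q.1
  hpr : p.2 < r.2
  ha : dt a p < dt a q
  hb : dt b p < dt b r
  fc : ∀ x ∈ L, r.1 ≤ x.1 ∧ x.1 ≤ q.1
  fa : ∀ x ∈ L, dt a p ≤ dt a x ∧ dt a x ≤ dt a q
  fb : ∀ x ∈ L, dt b p ≤ dt b x ∧ dt b x ≤ dt b r

end AP
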