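import Pool.Agent.H28.AP.Df

/-!
The discrete path of good cuts: a cyclic sequence of points, three consecutive greedy blocks of which go round,
is covered by three translates with a common point, for a convex set with the tie property.

No ties: then every good triple has a lowest translate (its label); good triples of one cut form a convex set, so the
label depends only on the cut, and not even on it for two cuts with a common good triple.  The cuts
`(i, G i, min (G (G i)) (i + N))` for `i = 0, ..., G 0` are connected in this way, and the last one is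
connected with the shift of the first, which has another label.
-/

set_option linter.unusedVariables false

open Real

namespace AP

open ZP (V)

/-- The block is in a translate. -/
private def Gx (L : Set V) (b : ℤ → V) (i j : ℤ) : Prop := ∃ p, Gd L b i j p

private theorem Gx.sub {L : Set V} {b : ℤ → V} {i j i' j' : ℤ} (h : Gx L b i j) (h1 : i ≤ i')
    (h2 : j' ≤ j) : Gx L b i' j' := by
  obtain ⟨p, hp⟩ := h
  exact ⟨p, fun m hm hm' => hp m (h1.trans hm) (hm'.trans h2)⟩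

private theorem fin3a : ∀ k : Fin 3, ∃ j1 j2 : Fin 3, j1 ≠ k ∧ j2 ≠ k ∧
    ∀ j, j ≠ k → j = j1 ∨ j = j2 := by decide

private theorem fin3b : ∀ k j : Fin 3, k ≠ j → ∃ i, ∀ m, m = k ∨ m = j ∨ m = i := by decide

private theorem fin3c : ∀ k : Fin 3, k ≠ k - 1 := by decide

/-- The three arcs of a cut. -/
private def lo (c : ℤ × ℤ × ℤ) : Fin 3 → ℤ := ![c.1, c.2.1, c.2.2]

/-- The three arcs of a cut. -/
private def hi (N : ℤ) (c : ℤ × ℤ × ℤ) : Fin 3 → ℤ := ![c.2.1, c.2.2, c.1 + N]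

/-- Three translates which contain the arcs of a cut. -/
private def St (L : Set V) (b : ℤ → V) (N : ℤ) (c : ℤ × ℤ × ℤ) (x : Fin 3 → V) : Prop :=
  ∀ i m, lo c i ≤ m → m ≤ hi N c i → b m - x i ∈ L

/-- A cut. -/
private def Ct (N : ℤ) (c : ℤ × ℤ × ℤ) : Prop := c.1 ≤ c.2.1 ∧ c.2.1 ≤ c.2.2 ∧ c.2.2 ≤ c.1 + N

/-- The translate `k` is the lowest. -/
private def Lab (g : V →ₗ[ℝ] ℝ) (k : Fin 3) (x : Fin 3 → V) : Prop := ∀ j, j ≠ k → g (x k) < g (x j)

private theorem Lab.uniq {g : V →ₗ[ℝ] ℝ} {k k' : Fin 3} {x : Fin 3 → V} (h : Lab g k x)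
    (h' : Lab g k' x) : k = k' := by
  by_contra hne
  exact absurd (h k' (Ne.symm hne)) (h' k hne).not_gt

variable {f g : V →ₗ[ℝ] ℝ} {L : Set V} {v w : V} {b : ℤ → V} {N : ℤ}

/-- no tie -/
private def NT (g : V →ₗ[ℝ] ℝ) (x : Fin 3 → V) : Prop :=
  ∀ k j, k ≠ j → g (x k) = g (x j) → ∃ i, g (x i) < g (x k)

private theorem NT.lab {x : Fin 3 → V} (h : NT g x) : ∃ k, Lab g k x := by
  obtain ⟨k, hk⟩ := Finite.exists_min (fun i => g (x i))
  refine ⟨k, fun j hj => ?_⟩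
  rcases eq_or_lt_of_le (hk j) with e | e
  · obtain ⟨i, hi⟩ := h k j (Ne.symm hj) e
    exact absurd hi (hk i).not_gt
  · exact e

private theorem St.cvx (hL : Convex ℝ L) {c : ℤ × ℤ × ℤ} {x y : Fin 3 → V} (hx : St L b N c x)
    (hy : St L b N c y) {t : ℝ} (h0 : 0 ≤ t) (h1 : t ≤ 1) :
    St L b N c (fun i => (1 - t) • x i + t • y i) := by
  intro i m h2 h3
  have e : b m - ((1 - t) • x i + t • y i) = (1 - t) • (b m - x i) + t • (b m - y i) := by
    have : b m = (1 - t) • b m + t • b m := by rw [← add_smul, sub_add_cancel, one_smul]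
    nth_rewrite 1 [this]
    rw [smul_sub, smul_sub]
    abel
  show b m - ((1 - t) • x i + t • y i) ∈ L
  rw [e]
  exact hL (hx i m h2 h3) (hy i m h2 h3) (by linarith) h0 (by ring)

private theorem same (hL : Convex ℝ L) {c : ℤ × ℤ × ℤ} (hn : ∀ x, St L b N c x → NT g x)
    {x y : Fin 3 → V} (hx : St L b N c x) (hy : St L b N c y) {k : Fin 3} (hk : Lab g k x) :
    Lab g k y := by
  obtain ⟨k', hk'⟩ := (hn y hy).lab
  rcases eq_or_ne k k' with e | hne
  · rw [e]
    exact hk'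
  exfalso
  obtain ⟨j1, j2, hj1, hj2, hall⟩ : ∃ j1 j2 : Fin 3, j1 ≠ k ∧ j2 ≠ k ∧
      ∀ j, j ≠ k → j = j1 ∨ j = j2 := fin3a k
  have hu : Continuous (fun t : ℝ =>
      min (g ((1 - t) • x j1 + t • y j1)) (g ((1 - t) • x j2 + t • y j2)) -
        g ((1 - t) • x k + t • y k)) := by
    have hc : ∀ j, Continuous (fun t : ℝ => g ((1 - t) • x j + t • y j)) := by
      intro j
      simp only [map_add, map_smul, smul_eq_mul]
      fun_prop
    exact ((hc j1).min (hc j2)).sub (hc k)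
  have h0 : (0 : ℝ) ≤ (fun t : ℝ =>
      min (g ((1 - t) • x j1 + t • y j1)) (g ((1 - t) • x j2 + t • y j2)) -
        g ((1 - t) • x k + t • y k)) 0 := by
    simp only [sub_zero, one_smul, zero_smul, add_zero, sub_nonneg]
    exact le_min (hk j1 hj1).le (hk j2 hj2).le
  have h1 : (fun t : ℝ =>
      min (g ((1 - t) • x j1 + t • y j1)) (g ((1 - t) • x j2 + t • y j2)) -
        g ((1 - t) • x k + t • y k)) 1 ≤ 0 := by
    simp only [sub_self, one_smul, zero_smul, zero_add, sub_nonpos]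
    have h2 := (hk' k hne).le
    rcases hall k' (Ne.symm hne) with e | e
    · rw [← e]
      exact (min_le_left _ _).trans h2
    · rw [← e]
      exact (min_le_right _ _).trans h2
  obtain ⟨t, ht, hut⟩ := intermediate_value_Icc' (zero_le_one' ℝ) hu.continuousOn ⟨h1, h0⟩
  have hs := hn _ (hx.cvx hL hy ht.1 ht.2)
  have hmin : min (g ((1 - t) • x j1 + t • y j1)) (g ((1 - t) • x j2 + t • y j2)) =
      g ((1 - t) • x k + t • y k) := sub_eq_zero.1 hut
  rcases min_choice (g ((1 - t) • x j1 + t • y j1)) (g ((1 - t) • x j2 + t • y j2)) with e | e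
  · obtain ⟨i, hi⟩ := hs k j1 (Ne.symm hj1) (by
      show g ((1 - t) • x k + t • y k) = g ((1 - t) • x j1 + t • y j1)
      rw [← hmin, e])
    have hi' : g ((1 - t) • x i + t • y i) < g ((1 - t) • x k + t • y k) := hi
    rw [← hmin] at hi'
    rcases eq_or_ne i k with e1 | e1
    · rw [e1, hmin] at hi'
      exact lt_irrefl _ hi'
    · rcases hall i e1 with e2 | e2
      · rw [e2] at hi'
        exact absurd hi' (min_le_left _ _).not_gt
      · rw [e2] at hi'
        exact absurd hi' (min_le_right _ _).not_gt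
  · obtain ⟨i, hi⟩ := hs k j2 (Ne.symm hj2) (by
      show g ((1 - t) • x k + t • y k) = g ((1 - t) • x j2 + t • y j2)
      rw [← hmin, e])
    have hi' : g ((1 - t) • x i + t • y i) < g ((1 - t) • x k + t • y k) := hi
    rw [← hmin] at hi'
    rcases eq_or_ne i k with e1 | e1
    · rw [e1, hmin] at hi'
      exact lt_irrefl _ hi'
    · rcases hall i e1 with e2 | e2
      · rw [e2] at hi'
        exact absurd hi' (min_le_left _ _).not_gt
      · rw [e2] at hi'
        exact absurd hi' (min_le_right _ _).not_gt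

/-- A common state for two cuts. -/
private theorem common {c c' : ℤ × ℤ × ℤ} (h : ∀ i, Gx L b (min (lo c i) (lo c' i))
    (max (hi N c i) (hi N c' i))) : ∃ x, St L b N c x ∧ St L b N c' x := by
  choose x hx using h
  refine ⟨x, fun i m h1 h2 => hx i m ((min_le_left _ _).trans h1) (h2.trans (le_max_left _ _)),
    fun i m h1 h2 => hx i m ((min_le_right _ _).trans h1) (h2.trans (le_max_right _ _))⟩

/-- The label is the same for two cuts with a common state. -/
private theorem pass (hL : Convex ℝ L) (hn : ∀ c, Ct N c → ∀ x, St L b N c x → NT g x)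
    {c c' : ℤ × ℤ × ℤ} (hc : Ct N c) (h : ∀ i, Gx L b (min (lo c i) (lo c' i))
    (max (hi N c i) (hi N c' i))) {k : Fin 3} (hk : ∃ x, St L b N c x ∧ Lab g k x) :
    ∃ x, St L b N c' x ∧ Lab g k x := by
  obtain ⟨x, hx, hx'⟩ := common h
  obtain ⟨y, hy, hyk⟩ := hk
  exact ⟨x, hx', same hL (hn c hc) hy hx hyk⟩

/-- The three blocks of a cut. -/
private theorem blocks {c c' : ℤ × ℤ × ℤ} {a1 a2 a3 e1 e2 e3 : ℤ} (h1 : Gx L b a1 e1) (h2 : Gx L b a2 e2)
    (h3 : Gx L b a3 e3) (l1 : a1 ≤ c.1) (l1' : a1 ≤ c'.1) (l2 : a2 ≤ c.2.1) (l2' : a2 ≤ c'.2.1)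
    (l3 : a3 ≤ c.2.2) (l3' : a3 ≤ c'.2.2) (u1 : c.2.1 ≤ e1) (u1' : c'.2.1 ≤ e1)
    (u2 : c.2.2 ≤ e2) (u2' : c'.2.2 ≤ e2) (u3 : c.1 + N ≤ e3) (u3' : c'.1 + N ≤ e3) :
    ∀ i, Gx L b (min (lo c i) (lo c' i)) (max (hi N c i) (hi N c' i)) := by
  intro i
  fin_cases i
  · exact h1.sub (le_min l1 l1') (max_le u1 u1')
  · exact h2.sub (le_min l2 l2') (max_le u2 u2')
  · exact h3.sub (le_min l3 l3') (max_le u3 u3')

/-- Three translates with a common point. -/
private theorem path (hcvx : Convex ℝ L)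
    (hT : ∀ x₁ x₂ x₃ : V, g x₁ = g x₂ → g x₁ ≤ g x₃ →
      (∃ w, w - x₁ ∈ L ∧ w - x₂ ∈ L) → (∃ w, w - x₁ ∈ L ∧ w - x₃ ∈ L) →
      (∃ w, w - x₂ ∈ L ∧ w - x₃ ∈ L) → ∃ o, o - x₁ ∈ L ∧ o - x₂ ∈ L ∧ o - x₃ ∈ L)
    (hper : ∀ i, b (i + N) = b i) (G : ℤ → ℤ) (g5 : ∀ i j, i ≤ j → G i ≤ G j)
    (g1 : ∀ i, i + 1 ≤ G i) (g2 : ∀ i, G i ≤ i + N - 1) (g6 : ∀ i, Gx L b i (G i))
    (g7 : ∀ i, i + N + 1 ≤ G (G (G i))) :
    ∃ c, Ct N c ∧ ∃ x, St L b N c x ∧ ∃ o, ∀ i, o - x i ∈ L := by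
  by_contra hcon
  -- no ties
  have hn : ∀ c, Ct N c → ∀ x, St L b N c x → NT g x := by
    intro c hc x hx
    by_contra hnt
    apply hcon
    refine ⟨c, hc, x, hx, ?_⟩
    have p01 : ∃ p, p - x 0 ∈ L ∧ p - x 1 ∈ L :=
      ⟨b c.2.1, hx 0 _ hc.1 le_rfl, hx 1 _ le_rfl hc.2.1⟩
    have p12 : ∃ p, p - x 1 ∈ L ∧ p - x 2 ∈ L :=
      ⟨b c.2.2, hx 1 _ hc.2.1 le_rfl, hx 2 _ le_rfl hc.2.2⟩
    have p02 : ∃ p, p - x 0 ∈ L ∧ p - x 2 ∈ L := by
      refine ⟨b c.1, hx 0 _ le_rfl hc.1, ?_⟩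
      rw [← hper]
      exact hx 2 _ hc.2.2 le_rfl
    have hp : ∀ i j, ∃ p, p - x i ∈ L ∧ p - x j ∈ L := by
      intro i j
      fin_cases i <;> fin_cases j
      · exact ⟨b c.1, hx 0 _ le_rfl hc.1, hx 0 _ le_rfl hc.1⟩
      · exact p01
      · exact p02
      · exact p01.imp fun _ k => ⟨k.2, k.1⟩
      · exact ⟨b c.2.1, hx 1 _ le_rfl hc.2.1, hx 1 _ le_rfl hc.2.1⟩
      · exact p12
      · exact p02.imp fun _ k => ⟨k.2, k.1⟩
      · exact p12.imp fun _ k => ⟨k.2, k.1⟩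
      · exact ⟨b c.2.2, hx 2 _ le_rfl hc.2.2, hx 2 _ le_rfl hc.2.2⟩
    unfold NT at hnt
    push Not at hnt
    obtain ⟨k, j, hkj, he, hmin⟩ := hnt
    obtain ⟨i, hi⟩ := fin3b k j hkj
    obtain ⟨o, h1, h2, h3⟩ := hT _ _ _ he (hmin i) (hp k j) (hp k i) (hp j i)
    refine ⟨o, fun m => ?_⟩
    rcases hi m with e | e | e
    · rw [e]; exact h1
    · rw [e]; exact h2
    · rw [e]; exact h3
  -- the chain
  have hstepk : ∀ i k, (∃ x, St L b N (i, G i, min (G (G i)) (i + N)) x ∧ Lab g k x) →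
      ∃ x, St L b N (i + 1, G (i + 1), min (G (G (i + 1))) (i + 1 + N)) x ∧ Lab g k x := by
    intro i k hk
    have k1 := g1 i
    have k2 := g2 i
    have k3 := g1 (G i)
    have k4 := g7 i
    have k5 := g5 i (i + 1) (by omega)
    have k6 := g5 (i + 1) (G i) k1
    have k7 := g5 (G i) (G (i + 1)) k5
    have k8 := g2 (i + 1)
    have k9 := g1 (i + 1)
    have k10 := g1 (G (i + 1))
    obtain ⟨m, hm⟩ : ∃ m, m = min (G (G i)) (i + N) := ⟨_, rfl⟩
    obtain ⟨m', hm'⟩ : ∃ m', m' = min (G (G (i + 1))) (i + 1 + N) := ⟨_, rfl⟩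
    rw [← hm] at hk
    rw [← hm']
    have q1 : G i ≤ m := by rw [hm]; exact le_min (by omega) (by omega)
    have q2 : m ≤ i + N := by rw [hm]; exact min_le_right _ _
    have q3 : m ≤ G (G i) := by rw [hm]; exact min_le_left _ _
    have q4 : i + 1 + N ≤ G m := by
      rcases min_choice (G (G i)) (i + N) with e | e
      · rw [hm, e]
        omega
      · rw [hm, e]
        have := g1 (i + N)
        omega
    have q5 : G (i + 1) ≤ m' := by rw [hm']; exact le_min (by omega) (by omega)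
    have q6 : m' ≤ i + 1 + N := by rw [hm']; exact min_le_right _ _
    have q7 : m' ≤ G (G (i + 1)) := by rw [hm']; exact min_le_left _ _
    have q8 : G (i + 1) ≤ m := by rw [hm]; exact le_min k6 (by omega)
    have q9 : m ≤ m' := by
      rw [hm, hm']
      exact min_le_min k7 (by omega)
    have s1 := pass (c' := (i + 1, G i, m)) hcvx hn
      (show Ct N (i, G i, m) from ⟨by show i ≤ G i; omega, q1, q2⟩)
      (blocks (g6 i) (g6 (G i)) (g6 m) le_rfl (by show i ≤ i + 1; omega) le_rfl le_rfl le_rfl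
        le_rfl le_rfl le_rfl q3 q3 (by show i + N ≤ G m; omega) q4) hk
    have s2 := pass (c' := (i + 1, G (i + 1), m)) hcvx hn
      (show Ct N (i + 1, G i, m) from ⟨k1, q1, by show m ≤ i + 1 + N; omega⟩)
      (blocks (g6 (i + 1)) (g6 (G i)) (g6 m) le_rfl le_rfl le_rfl k5 le_rfl
        le_rfl k5 le_rfl q3 q3 q4 q4) s1
    exact pass (c' := (i + 1, G (i + 1), m')) hcvx hn
      (show Ct N (i + 1, G (i + 1), m) from
        ⟨by show i + 1 ≤ G (i + 1); omega, q8, by show m ≤ i + 1 + N; omega⟩)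
      (blocks (g6 (i + 1)) (g6 (G (i + 1))) (g6 m) le_rfl le_rfl le_rfl le_rfl le_rfl
        q9 le_rfl le_rfl (q3.trans k7) q7 q4 q4) s2
  have hchain : ∀ k, (∃ x, St L b N (0, G 0, min (G (G 0)) (0 + N)) x ∧ Lab g k x) →
      ∀ n : ℕ, ∃ x, St L b N ((n : ℤ), G n, min (G (G n)) ((n : ℤ) + N)) x ∧ Lab g k x := by
    intro k hk n
    induction n with
    | zero => exact hk
    | succ n ih =>
      have := hstepk _ _ ih
      push_cast
      exact this
  have k1 := g1 0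
  have k2 := g2 0
  have k3 := g1 (G 0)
  have k4 := g7 0
  have k5 := g2 (G 0)
  have k6 := g1 (G (G 0))
  obtain ⟨m, hm⟩ : ∃ m, m = min (G (G 0)) (0 + N) := ⟨_, rfl⟩
  rw [← hm] at hchain
  have q1 : G 0 ≤ m := by rw [hm]; exact le_min (by omega) (by omega)
  have q2 : m ≤ 0 + N := by rw [hm]; exact min_le_right _ _
  have q3 : m ≤ G (G 0) := by rw [hm]; exact min_le_left _ _
  have q4 : 0 + N + 1 ≤ G m := by
    rcases min_choice (G (G 0)) (0 + N) with e | e
    · rw [hm, e]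
      omega
    · rw [hm, e]
      exact g1 (0 + N)
  -- a state of the first cut
  obtain ⟨x, hx, -⟩ := common (L := L) (b := b) (N := N) (c := (0, G 0, m)) (c' := (0, G 0, m))
    (blocks (g6 0) (g6 (G 0)) (g6 m) le_rfl le_rfl le_rfl le_rfl le_rfl le_rfl le_rfl le_rfl q3 q3
      (by show 0 + N ≤ G m; omega) (by show 0 + N ≤ G m; omega))
  have hCt : Ct N (0, G 0, m) := ⟨by show 0 ≤ G 0; omega, q1, q2⟩
  obtain ⟨k, hk⟩ := (hn _ hCt x hx).lab
  have hnG : ((G 0).toNat : ℤ) = G 0 := Int.toNat_of_nonneg (by omega)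
  have hfin := hchain k ⟨x, hx, hk⟩ (G 0).toNat
  rw [hnG] at hfin
  obtain ⟨m', hm'⟩ : ∃ m', m' = min (G (G (G 0))) (G 0 + N) := ⟨_, rfl⟩
  rw [← hm'] at hfin
  have r1 : G (G 0) ≤ m' := by rw [hm']; exact le_min (by omega) (by omega)
  have r2 : m' ≤ G 0 + N := by rw [hm']; exact min_le_right _ _
  have r3 : m' ≤ G (G (G 0)) := by rw [hm']; exact min_le_left _ _
  have r4 : N ≤ m' := by rw [hm']; exact le_min (by omega) (by omega)
  have hN0 : Gx L b N (G 0 + N) := by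
    obtain ⟨p, hp⟩ := g6 0
    refine ⟨p, fun a h1 h2 => ?_⟩
    have := hp (a - N) (by omega) (by omega)
    rwa [← hper (a - N), sub_add_cancel] at this
  have hmm : Gx L b m m' := by
    rcases min_choice (G (G 0)) (0 + N) with e | e
    · rw [hm, e]
      exact (g6 _).sub le_rfl r3
    · rw [hm, e, zero_add]
      exact hN0.sub le_rfl r2
  have s1 := pass (c' := (G 0, m, m')) hcvx hn
    (show Ct N (G 0, G (G 0), m') from ⟨by show G 0 ≤ G (G 0); omega, r1, r2⟩)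
    (blocks (g6 (G 0)) hmm hN0 le_rfl le_rfl q3 le_rfl r4 r4 le_rfl q3 le_rfl le_rfl le_rfl le_rfl)
    hfin
  have s2 := pass (c' := (G 0, m, N)) hcvx hn
    (show Ct N (G 0, m, m') from ⟨q1, by show m ≤ m'; omega, r2⟩)
    (blocks (g6 (G 0)) hmm hN0 le_rfl le_rfl le_rfl le_rfl r4 le_rfl q3 q3 le_rfl r4 le_rfl
      le_rfl) s1
  -- the shifted state
  have hCt' : Ct N (G 0, m, N) := ⟨q1, by show m ≤ N; omega, by show N ≤ G 0 + N; omega⟩
  have hy : St L b N (G 0, m, N) (fun i => x (i + 1)) := by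
    intro i a h1 h2
    fin_cases i
    · exact hx 1 a h1 h2
    · refine hx 2 a h1 ?_
      show a ≤ 0 + N
      rw [zero_add]
      exact h2
    · have h3 : b (a - N) - x 0 ∈ L := by
        refine hx 0 (a - N) ?_ ?_
        · show 0 ≤ a - N
          have h1' : N ≤ a := h1
          omega
        · show a - N ≤ G 0
          have h2' : a ≤ G 0 + N := h2
          omega
      rw [← hper (a - N), sub_add_cancel] at h3
      exact h3
  obtain ⟨z, hz, hzk⟩ := s2
  have hyk := same hcvx (hn _ hCt') hz hy hzk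
  have hyk' : Lab g (k - 1) (fun i => x (i + 1)) := by
    intro j hj
    show g (x (k - 1 + 1)) < g (x (j + 1))
    rw [sub_add_cancel]
    refine hk (j + 1) fun e => hj ?_
    rw [← e, add_sub_cancel_right]
  exact fin3c k (hyk.uniq hyk')

theorem disc {M : Set V} (hM : Convex ℝ M) (hT : TieP M) {b : ℤ → V} {N : ℤ} (hN : 0 < N)
    (hb : ∀ i, b (i + N) = b i) (G : ℤ → ℤ) (mono : Monotone G)
    (per : ∀ i, G (i + N) = G i + N) (lo : ∀ i, i + 1 ≤ G i) (hi : ∀ i, G i ≤ i + N)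
    (gd : ∀ i, ∃ x, Gd M b i (G i) x) (h3 : ∀ i, i + N + 1 ≤ G (G (G i))) :
    ∃ c₁ c₂ c₃ x₁ x₂ x₃ o, Fit M b N c₁ c₂ c₃ x₁ x₂ x₃ ∧
      o - x₁ ∈ M ∧ o - x₂ ∈ M ∧ o - x₃ ∈ M := by
  by_cases h : ∃ i, G i = i + N
  · obtain ⟨i, h⟩ := h
    obtain ⟨x, hx⟩ := gd i
    rw [h] at hx
    have h0 : b i - x ∈ M := hx i le_rfl (by omega)
    refine ⟨i, i + N, i + N, x, x, x, b i, ⟨by omega, le_rfl, le_rfl, hx, ?_, ?_⟩, h0, h0, h0⟩
    · exact fun k h1 h2 => hx k (by omega) h2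
    · exact fun k h1 h2 => hx k (by omega) h2
  · have hi' : ∀ i, G i ≤ i + N - 1 := by
      intro i
      have h1 := hi i
      have h2 : G i ≠ i + N := fun e => h ⟨i, e⟩
      omega
    obtain ⟨c, hc, x, hx, o, ho⟩ := path (g := LinearMap.snd ℝ ℝ ℝ) (b := b) (N := N) hM hT hb G
      (fun i j hij => mono hij) lo hi' gd h3
    exact ⟨c.1, c.2.1, c.2.2, x 0, x 1, x 2, o,
      ⟨hc.1, hc.2.1, hc.2.2, fun k => hx 0 k, fun k => hx 1 k, fun k => hx 2 k⟩,
      ho 0, ho 1, ho 2⟩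

end AP
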