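import Pool.Agent.H27.EB.Ag2
import Pool.Agent.H73.ZP.Ai

/-!
The statement for the Euclidean plane and `n` families, for bodies with three pairwise antipodal points
(from `H27EB.Ag2`).
-/

set_option autoImplicit false

open scoped Pointwise

/-- `p, q, r` are pairwise antipodal points of `K`: any two of them lie on two distinct parallel
supporting lines of `K`. -/
structure AP.Antipodal3 (K : Set (EuclideanSpace ℝ (Fin 2))) (p q r : EuclideanSpace ℝ (Fin 2)) :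
    Prop where
  hp : p ∈ K
  hq : q ∈ K
  hr : r ∈ K
  pq : ∃ f : EuclideanSpace ℝ (Fin 2) →ₗ[ℝ] ℝ, f p < f q ∧ ∀ x ∈ K, f p ≤ f x ∧ f x ≤ f q
  pr : ∃ f : EuclideanSpace ℝ (Fin 2) →ₗ[ℝ] ℝ, f p < f r ∧ ∀ x ∈ K, f p ≤ f x ∧ f x ≤ f r
  qr : ∃ f : EuclideanSpace ℝ (Fin 2) →ₗ[ℝ] ℝ, f q < f r ∧ ∀ x ∈ K, f q ≤ f x ∧ f x ≤ f r

namespace AP

open ZP TL

theorem lin_dt (f : EuclideanSpace ℝ (Fin 2) →ₗ[ℝ] ℝ) (x : EuclideanSpace ℝ (Fin 2)) :
    f x = dt (f (EuclideanSpace.single 0 1), f (EuclideanSpace.single 1 1)) (AiT x) := by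
  have h1 : x = x 0 • EuclideanSpace.single 0 (1 : ℝ) + x 1 • EuclideanSpace.single 1 (1 : ℝ) := by
    ext i
    fin_cases i <;> simp
  conv_lhs => rw [h1]
  rw [map_add, map_smul, map_smul, smul_eq_mul, smul_eq_mul]
  show x 0 * _ + x 1 * _ = _ * x 0 + _ * x 1
  ring

theorem cover_fin (K S : Set (EuclideanSpace ℝ (Fin 2))) (p : Fin 3 → V)
    (h : ∀ a ∈ AiT '' S, ∃ k, a - p k ∈ (fun x => - AiT x) '' K) :
    ∃ P : Finset (EuclideanSpace ℝ (Fin 2)), P.card ≤ 3 ∧ ∀ a ∈ S, ∃ p ∈ P, p ∈ a +ᵥ K := by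
  classical
  choose g hg using AiT_surj
  refine ⟨Finset.univ.image (fun k => g (p k)), ?_, ?_⟩
  · exact Finset.card_image_le.trans (by simp)
  · intro a ha
    obtain ⟨k, κ, hκ, hk⟩ := h (AiT a) ⟨a, ha, rfl⟩
    refine ⟨g (p k), Finset.mem_image_of_mem _ (Finset.mem_univ k), ?_⟩
    rw [Set.mem_vadd_set]
    refine ⟨κ, hκ, ?_⟩
    rw [vadd_eq_add]
    apply AiT_inj
    rw [AiT_add, hg]
    have hk' : - AiT κ = AiT a - p k := hk
    have h4 : AiT κ = p k - AiT a := by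
      rw [← neg_sub, ← hk', neg_neg]
    rw [h4, add_sub_cancel]

/-- The class is invariant under the point reflection. -/
theorem at_of {K : Set (EuclideanSpace ℝ (Fin 2))} {x y z : EuclideanSpace ℝ (Fin 2)}
    (h : Antipodal3 K x y z) : ∃ a b c : V,
    AT ((fun x => - AiT x) '' K) (- AiT x) (- AiT y) (- AiT z) a b c := by
  obtain ⟨hp, hq, hr, ⟨f, f1, f2⟩, ⟨k, k1, k2⟩, ⟨g, g1, g2⟩⟩ := h
  -- `f x < f y`, `k x < k z`, `g y < g z`
  refine ⟨(-f (EuclideanSpace.single 0 1), -f (EuclideanSpace.single 1 1)),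
    (-k (EuclideanSpace.single 0 1), -k (EuclideanSpace.single 1 1)),
    (g (EuclideanSpace.single 0 1), g (EuclideanSpace.single 1 1)), ?_⟩
  have ef : ∀ x, dt (-f (EuclideanSpace.single 0 1), -f (EuclideanSpace.single 1 1)) (- AiT x) =
      f x := by
    intro x
    rw [lin_dt f x]
    simp only [dt, Prod.fst_neg, Prod.snd_neg]
    ring
  have ek : ∀ x, dt (-k (EuclideanSpace.single 0 1), -k (EuclideanSpace.single 1 1)) (- AiT x) =
      k x := by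
    intro x
    rw [lin_dt k x]
    simp only [dt, Prod.fst_neg, Prod.snd_neg]
    ring
  have eg : ∀ x, dt (g (EuclideanSpace.single 0 1), g (EuclideanSpace.single 1 1)) (- AiT x) =
      - g x := by
    intro x
    rw [lin_dt g x]
    simp only [dt, Prod.fst_neg, Prod.snd_neg]
    ring
  exact
    { hp := ⟨_, hp, rfl⟩
      hq := ⟨_, hq, rfl⟩
      hr := ⟨_, hr, rfl⟩
      a1 := by
        rintro _ ⟨x, hx, rfl⟩
        rw [ef, ef]; exact (f2 x hx).1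
      a2 := by
        rintro _ ⟨x, hx, rfl⟩
        rw [ef, ef]; exact (f2 x hx).2
      b1 := by
        rintro _ ⟨x, hx, rfl⟩
        rw [ek, ek]; exact (k2 x hx).1
      b2 := by
        rintro _ ⟨x, hx, rfl⟩
        rw [ek, ek]; exact (k2 x hx).2
      c1 := by
        rintro _ ⟨x, hx, rfl⟩
        rw [eg, eg]; linarith [(g2 x hx).2]
      c2 := by
        rintro _ ⟨x, hx, rfl⟩
        rw [eg, eg]; linarith [(g2 x hx).1]
      apq := by rw [ef, ef]; exact f1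
      bpr := by rw [ek, ek]; exact k1
      crq := by rw [eg, eg]; linarith }

/-- Translates of a compact convex `K` with three pairwise antipodal points. -/
theorem fin (n : ℕ) (_hn : 2 ≤ n) (K : Set (EuclideanSpace ℝ (Fin 2))) (hK : IsCompact K)
    (hKc : Convex ℝ K) (hanti : ∃ x y z, Antipodal3 K x y z)
    (F : Fin n → Set (EuclideanSpace ℝ (Fin 2))) (_hF : ∀ i, (F i).Nonempty)
    (hint : ∀ i j : Fin n, i ≠ j → ∀ a ∈ F i, ∀ b ∈ F j,
      ((a +ᵥ K) ∩ (b +ᵥ K)).Nonempty)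
    (p q : Fin n) (hsame : ∀ i : Fin n, i ≠ p → i ≠ q → ∀ a ∈ F i, ∀ b ∈ F i,
      ((a +ᵥ K) ∩ (b +ᵥ K)).Nonempty) :
    ∃ m : Fin n, ∃ P : Finset (EuclideanSpace ℝ (Fin 2)), P.card ≤ 3 ∧
      ∀ i : Fin n, i ≠ m → ∀ a ∈ F i, ∃ w ∈ P, w ∈ a +ᵥ K := by
  have hL : IsCompact ((fun x => - AiT x) '' K) := hK.image AiT_cont.neg
  have hLc : Convex ℝ ((fun x => - AiT x) '' K) := by
    rintro _ ⟨x, hx, rfl⟩ _ ⟨y, hy, rfl⟩ s t hs ht hst
    refine ⟨s • x + t • y, hKc hx hy hs ht hst, ?_⟩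
    show - AiT (s • x + t • y) = s • (- AiT x) + t • (- AiT y)
    rw [AiT_add, AiT_smul, AiT_smul, smul_neg, smul_neg, neg_add]
  obtain ⟨x₀, y₀, z₀, h3⟩ := hanti
  obtain ⟨u₀, v₀, w₀, hAT⟩ := at_of h3
  have key : ∀ a b : EuclideanSpace ℝ (Fin 2), ((a +ᵥ K) ∩ (b +ᵥ K)).Nonempty →
      ∃ y ∈ (fun x => - AiT x) '' K, ∃ z ∈ (fun x => - AiT x) '' K,
        AiT a - AiT b = y - z := by
    rintro a b ⟨x, hxa, hxb⟩
    obtain ⟨k, hk, hk'⟩ := Set.mem_vadd_set.1 hxa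
    obtain ⟨l, hl, hl'⟩ := Set.mem_vadd_set.1 hxb
    refine ⟨_, ⟨k, hk, rfl⟩, _, ⟨l, hl, rfl⟩, ?_⟩
    rw [vadd_eq_add] at hk' hl'
    have h1 : AiT a + AiT k = AiT b + AiT l := by
      rw [← AiT_add, ← AiT_add, hk', hl']
    show AiT a - AiT b = - AiT k - (- AiT l)
    rw [sub_neg_eq_add, sub_eq_iff_eq_add, ← sub_eq_zero]
    have h2 := sub_eq_zero.2 h1
    rw [← h2]
    abel
  have hAB : ∀ a ∈ AiT '' (⋃ j ∈ {j : Fin n | j ≠ q}, F j),
      ∀ b ∈ AiT '' (⋃ j ∈ {j : Fin n | j ≠ p}, F j),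
      ∃ y ∈ (fun x => - AiT x) '' K, ∃ z ∈ (fun x => - AiT x) '' K, a - b = y - z := by
    rintro _ ⟨a, ha, rfl⟩ _ ⟨b, hb, rfl⟩
    obtain ⟨i, hi, ha⟩ := Set.mem_iUnion₂.1 ha
    obtain ⟨j, hj, hb⟩ := Set.mem_iUnion₂.1 hb
    apply key
    by_cases hij : i = j
    · subst hij
      exact hsame i hj hi a ha b hb
    · exact hint i j hij a ha b hb
  rcases H27EB.Ag2 _ hL hLc hAT _ _ hAB with ⟨c, hc⟩ | ⟨c, hc⟩
  · obtain ⟨P, hP, h⟩ := cover_fin K _ c hc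
    exact ⟨q, P, hP, fun i hi a ha => h a (Set.mem_iUnion₂.2 ⟨i, hi, ha⟩)⟩
  · obtain ⟨P, hP, h⟩ := cover_fin K _ c hc
    exact ⟨p, P, hP, fun i hi a ha => h a (Set.mem_iUnion₂.2 ⟨i, hi, ha⟩)⟩

end AP
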